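import Mathlib

/-! Packet Pq-LL, part A: a polynomial lower bound of the tangent, and the integrals of
`t^n cos 2t`, `t^n sin 2t` on `[0, π/2]`. -/

namespace Pool.Agent.Helper73.Pq

open MeasureTheory Set

noncomputable def S1 (t : ℝ) : ℝ :=
  t + t ^ 3 / 3 + 2 * t ^ 5 / 15 + 17 * t ^ 7 / 315 + 62 * t ^ 9 / 2835 + 1382 * t ^ 11 / 155925

noncomputable def TT (t : ℝ) : ℝ := S1 t + 0.00359 * t ^ 13 + 0.00145 * t ^ 15

noncomputable def dT (t : ℝ) : ℝ :=
  1 + t ^ 2 + 2 * t ^ 4 / 3 + 17 * t ^ 6 / 45 + 62 * t ^ 8 / 315 + 1382 * t ^ 10 / 14175 +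
    0.04667 * t ^ 12 + 0.02175 * t ^ 14

noncomputable def QT (t : ℝ) : ℝ :=
  t ^ 2 / 2 + t ^ 4 / 12 + t ^ 6 / 45 + 17 * t ^ 8 / 2520 + 31 * t ^ 10 / 14175 +
    691 * t ^ 12 / 935550 + 0.00359 * t ^ 14 / 14 + 0.00145 * t ^ 16 / 16

theorem hasDerivAt_TT (t : ℝ) : HasDerivAt TT (dT t) t := by
  have h : HasDerivAt (fun x : ℝ => x + x ^ 3 / 3 + 2 * x ^ 5 / 15 + 17 * x ^ 7 / 315 +
      62 * x ^ 9 / 2835 + 1382 * x ^ 11 / 155925 + 0.00359 * x ^ 13 + 0.00145 * x ^ 15) _ t :=
    ((((((((hasDerivAt_id' t).fun_add ((hasDerivAt_pow 3 t).div_const 3)).fun_add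
      (((hasDerivAt_pow 5 t).const_mul 2).div_const 15)).fun_add
      (((hasDerivAt_pow 7 t).const_mul 17).div_const 315)).fun_add
      (((hasDerivAt_pow 9 t).const_mul 62).div_const 2835)).fun_add
      (((hasDerivAt_pow 11 t).const_mul 1382).div_const 155925)).fun_add
      ((hasDerivAt_pow 13 t).const_mul 0.00359)).fun_add
      ((hasDerivAt_pow 15 t).const_mul 0.00145))
  refine h.congr_deriv ?_
  unfold dT
  norm_num
  ring

theorem hasDerivAt_QT (t : ℝ) : HasDerivAt QT (TT t) t := by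
  have h : HasDerivAt (fun x : ℝ => x ^ 2 / 2 + x ^ 4 / 12 + x ^ 6 / 45 + 17 * x ^ 8 / 2520 +
      31 * x ^ 10 / 14175 + 691 * x ^ 12 / 935550 + 0.00359 * x ^ 14 / 14 +
      0.00145 * x ^ 16 / 16) _ t :=
    (((((((((hasDerivAt_pow 2 t).div_const 2).fun_add ((hasDerivAt_pow 4 t).div_const 12)).fun_add
      ((hasDerivAt_pow 6 t).div_const 45)).fun_add
      (((hasDerivAt_pow 8 t).const_mul 17).div_const 2520)).fun_add
      (((hasDerivAt_pow 10 t).const_mul 31).div_const 14175)).fun_add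
      (((hasDerivAt_pow 12 t).const_mul 691).div_const 935550)).fun_add
      (((hasDerivAt_pow 14 t).const_mul 0.00359).div_const 14)).fun_add
      (((hasDerivAt_pow 16 t).const_mul 0.00145).div_const 16))
  refine h.congr_deriv ?_
  unfold TT S1
  norm_num
  ring

theorem riccati (t : ℝ) : dT t ≤ 1 + TT t ^ 2 := by
  have h : 1 + TT t ^ 2 - dT t =
      (51763/1871100000) * t ^ 12 +
      (1090511/13097700000) * t ^ 14 +
      (98403469/9823275000) * t ^ 16 +
      (424231757/126299250000) * t ^ 18 +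
      (1027165669/884094750000) * t ^ 20 +
      (3813070501/9725042250000) * t ^ 22 +
      (82549/649687500) * t ^ 24 +
      (2406950797/62370000000000) * t ^ 26 +
      (10411/1000000000) * t ^ 28 +
      (841/400000000) * t ^ 30 := by
    unfold TT S1 dT
    norm_num
    ring
  have e : ∀ k : ℕ, 0 ≤ t ^ (2 * k) := fun k => by rw [pow_mul]; positivity
  have e6 := e 6
  have e7 := e 7
  have e8 := e 8
  have e9 := e 9
  have e10 := e 10
  have e11 := e 11
  have e12 := e 12
  have e13 := e 13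
  have e14 := e 14
  have e15 := e 15
  norm_num at e6 e7 e8 e9 e10 e11 e12 e13 e14 e15
  have : 0 ≤ 1 + TT t ^ 2 - dT t := by
    rw [h]
    positivity
  linarith

theorem tan_lb {t : ℝ} (h0 : 0 ≤ t) (h1 : t ≤ Real.pi / 2) :
    TT t * Real.cos t ≤ Real.sin t := by
  have hd : ∀ x : ℝ, HasDerivAt (fun x => (Real.sin x - TT x * Real.cos x) * Real.exp (-QT x))
      (Real.cos x * (1 + TT x ^ 2 - dT x) * Real.exp (-QT x)) x := by
    intro x
    have h2 := ((Real.hasDerivAt_sin x).fun_sub ((hasDerivAt_TT x).fun_mul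
      (Real.hasDerivAt_cos x))).fun_mul ((hasDerivAt_QT x).fun_neg.exp)
    refine h2.congr_deriv ?_
    ring
  have hm : MonotoneOn (fun x => (Real.sin x - TT x * Real.cos x) * Real.exp (-QT x))
      (Icc 0 (Real.pi / 2)) := by
    refine monotoneOn_of_deriv_nonneg (convex_Icc _ _)
      (fun x _ => (hd x).continuousAt.continuousWithinAt)
      (fun x _ => (hd x).differentiableAt.differentiableWithinAt) ?_
    intro x hx
    rw [interior_Icc] at hx
    rw [(hd x).deriv]
    have hc : 0 ≤ Real.cos x := Real.cos_nonneg_of_neg_pi_div_two_le_of_le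
      (by linarith [hx.1, Real.pi_pos]) hx.2.le
    have := riccati x
    have hq : 0 ≤ 1 + TT x ^ 2 - dT x := by linarith
    positivity
  have h3 := hm (left_mem_Icc.2 (by positivity)) ⟨h0, h1⟩ h0
  have h4 : (Real.sin 0 - TT 0 * Real.cos 0) * Real.exp (-QT 0) = 0 := by
    simp [TT, S1]
  simp only [h4] at h3
  have h5 := nonneg_of_mul_nonneg_left h3 (Real.exp_pos _)
  linarith

/-! ### The integrals -/

noncomputable def Jn (n : ℕ) : ℝ := ∫ t in (0 : ℝ)..(Real.pi / 2), t ^ n * Real.cos (2 * t)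

noncomputable def Kn (n : ℕ) : ℝ := ∫ t in (0 : ℝ)..(Real.pi / 2), t ^ n * Real.sin (2 * t)

theorem two_mul_half : 2 * (Real.pi / 2) = Real.pi := by ring

theorem hds (t : ℝ) : HasDerivAt (fun t : ℝ => Real.sin (2 * t)) (2 * Real.cos (2 * t)) t := by
  have h := ((hasDerivAt_id' t).const_mul 2).sin
  refine h.congr_deriv ?_
  ring

theorem hdc (t : ℝ) : HasDerivAt (fun t : ℝ => Real.cos (2 * t)) (-(2 * Real.sin (2 * t))) t := by
  have h := ((hasDerivAt_id' t).const_mul 2).cos
  refine h.congr_deriv ?_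
  ring

theorem J0 : Jn 0 = 0 := by
  unfold Jn
  have h := intervalIntegral.integral_eq_sub_of_hasDerivAt (a := 0) (b := Real.pi / 2)
    (f := fun t => Real.sin (2 * t) / 2) (f' := fun t => t ^ 0 * Real.cos (2 * t))
    (fun t _ => by
      refine ((hds t).div_const 2).congr_deriv ?_
      simp) (Continuous.intervalIntegrable (by fun_prop) _ _)
  rw [h, two_mul_half]
  simp

theorem K0 : Kn 0 = 1 := by
  unfold Kn
  have h := intervalIntegral.integral_eq_sub_of_hasDerivAt (a := 0) (b := Real.pi / 2)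
    (f := fun t => -(Real.cos (2 * t) / 2)) (f' := fun t => t ^ 0 * Real.sin (2 * t))
    (fun t _ => by
      refine ((hdc t).div_const 2).fun_neg.congr_deriv ?_
      simp only [pow_zero, one_mul]
      ring) (Continuous.intervalIntegrable (by fun_prop) _ _)
  rw [h, two_mul_half]
  simp
  norm_num

theorem J_succ (n : ℕ) : Jn (n + 1) = -(((n : ℝ) + 1) / 2) * Kn n := by
  unfold Jn Kn
  have h := intervalIntegral.integral_eq_sub_of_hasDerivAt (a := 0) (b := Real.pi / 2)
    (f := fun t => t ^ (n + 1) * (Real.sin (2 * t) / 2))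
    (f' := fun t => ((n : ℝ) + 1) / 2 * (t ^ n * Real.sin (2 * t)) +
      t ^ (n + 1) * Real.cos (2 * t))
    (fun t _ => by
      refine ((hasDerivAt_pow (n + 1) t).fun_mul ((hds t).div_const 2)).congr_deriv ?_
      push_cast
      simp
      ring) (Continuous.intervalIntegrable (by fun_prop) _ _)
  rw [intervalIntegral.integral_add (Continuous.intervalIntegrable (by fun_prop) _ _)
    (Continuous.intervalIntegrable (by fun_prop) _ _), intervalIntegral.integral_const_mul,
    two_mul_half] at h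
  simp at h
  linarith

theorem K_succ (n : ℕ) : Kn (n + 1) = (Real.pi / 2) ^ (n + 1) / 2 + ((n : ℝ) + 1) / 2 * Jn n := by
  unfold Jn Kn
  have h := intervalIntegral.integral_eq_sub_of_hasDerivAt (a := 0) (b := Real.pi / 2)
    (f := fun t => -(t ^ (n + 1) * (Real.cos (2 * t) / 2)))
    (f' := fun t => -(((n : ℝ) + 1) / 2 * (t ^ n * Real.cos (2 * t))) +
      t ^ (n + 1) * Real.sin (2 * t))
    (fun t _ => by
      refine ((hasDerivAt_pow (n + 1) t).fun_mul ((hdc t).div_const 2)).fun_neg.congr_deriv ?_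
      push_cast
      simp
      ring) (Continuous.intervalIntegrable (by fun_prop) _ _)
  rw [intervalIntegral.integral_add (Continuous.intervalIntegrable (by fun_prop) _ _)
    (Continuous.intervalIntegrable (by fun_prop) _ _), intervalIntegral.integral_neg,
    intervalIntegral.integral_const_mul, two_mul_half] at h
  simp at h
  linarith

end Pool.Agent.Helper73.Pq
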