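import Mathlib
import Pool.Agent.Helper73.Pq.LLA

/-! Packet Pq-LL, part B: `cos t (1 - vt²/2 + zt⁴/24) + sin t z t⁴/36 ≤ e^(-P(t))`. -/

namespace Pool.Agent.Helper73.Pq

open MeasureTheory Set

noncomputable def Kp (t : ℝ) : ℝ := -(29 / 150) + 0.01998 * t ^ 2 + t / 36 +
  TT t * (1 / 9 + t * (S1 t + 0.111 * t + 0.0062 * t ^ 3) / 36)

theorem S1_mono {a b : ℝ} (ha : 0 ≤ a) (hab : a ≤ b) : S1 a ≤ S1 b := by
  unfold S1
  gcongr

theorem S1_nonneg {a : ℝ} (ha : 0 ≤ a) : 0 ≤ S1 a := by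
  unfold S1
  positivity

theorem TT_mono {a b : ℝ} (ha : 0 ≤ a) (hab : a ≤ b) : TT a ≤ TT b := by
  have := S1_mono ha hab
  unfold TT
  gcongr

theorem TT_nonneg {a : ℝ} (ha : 0 ≤ a) : 0 ≤ TT a := by
  have := S1_nonneg ha
  unfold TT
  positivity

theorem Kp_mono {a b : ℝ} (ha : 0 ≤ a) (hab : a ≤ b) : Kp a ≤ Kp b := by
  have h1 := S1_mono ha hab
  have h2 := TT_mono ha hab
  have h3 := S1_nonneg ha
  have h4 := TT_nonneg ha
  have h5 := S1_nonneg (ha.trans hab)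
  have h6 := TT_nonneg (ha.trans hab)
  have hb := ha.trans hab
  unfold Kp
  gcongr

theorem W_step {a b t : ℝ} (ha : 0 ≤ a) (hat : a ≤ t) (htb : t ≤ b) (hb : b ≤ 1.571)
    (h : 0.0355 * Kp b ≤ (1 - 0.0555 * b ^ 2) * (0.00359 * a ^ 10 + 0.00145 * a ^ 12)) :
    0.0355 * Kp t ≤ (1 - 0.0555 * t ^ 2) * (0.00359 * t ^ 10 + 0.00145 * t ^ 12) := by
  have ht : 0 ≤ t := ha.trans hat
  have h1 := Kp_mono ht htb
  have h2 : t ^ 2 ≤ b ^ 2 := by gcongr
  have h3 : b ^ 2 ≤ 1.571 ^ 2 := by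
    have := ht.trans htb
    gcongr
  have h4 : (1 - 0.0555 * b ^ 2) * (0.00359 * a ^ 10 + 0.00145 * a ^ 12) ≤
      (1 - 0.0555 * t ^ 2) * (0.00359 * t ^ 10 + 0.00145 * t ^ 12) := by
    have h5 : 0 ≤ 1 - 0.0555 * b ^ 2 := by norm_num at h3 ⊢; linarith
    have h6 : 0.00359 * a ^ 10 + 0.00145 * a ^ 12 ≤ 0.00359 * t ^ 10 + 0.00145 * t ^ 12 := by
      gcongr
    have h7 : 0 ≤ 0.00359 * t ^ 10 + 0.00145 * t ^ 12 := by positivity
    calc _ ≤ (1 - 0.0555 * b ^ 2) * (0.00359 * t ^ 10 + 0.00145 * t ^ 12) :=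
          mul_le_mul_of_nonneg_left h6 h5
      _ ≤ _ := mul_le_mul_of_nonneg_right (by linarith) h7
  linarith

theorem W_all {t : ℝ} (ht : 0 ≤ t) (ht1 : t ≤ 1.571) :
    0.0355 * Kp t ≤ (1 - 0.0555 * t ^ 2) * (0.00359 * t ^ 10 + 0.00145 * t ^ 12) := by
  rcases le_total t 0.84 with h | h
  · exact W_step le_rfl ht h (by norm_num) (by unfold Kp TT S1; norm_num)
  rcases le_total t 0.88 with h' | h'
  · exact W_step (by norm_num) h h' (by norm_num) (by unfold Kp TT S1; norm_num)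
  clear h
  rcases le_total t 0.905 with h | h
  · exact W_step (by norm_num) h' h (by norm_num) (by unfold Kp TT S1; norm_num)
  clear h'
  rcases le_total t 0.925 with h' | h'
  · exact W_step (by norm_num) h h' (by norm_num) (by unfold Kp TT S1; norm_num)
  clear h
  rcases le_total t 0.945 with h | h
  · exact W_step (by norm_num) h' h (by norm_num) (by unfold Kp TT S1; norm_num)
  clear h'
  rcases le_total t 0.965 with h' | h'
  · exact W_step (by norm_num) h h' (by norm_num) (by unfold Kp TT S1; norm_num)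
  clear h
  rcases le_total t 0.99 with h | h
  · exact W_step (by norm_num) h' h (by norm_num) (by unfold Kp TT S1; norm_num)
  clear h'
  rcases le_total t 1.02 with h' | h'
  · exact W_step (by norm_num) h h' (by norm_num) (by unfold Kp TT S1; norm_num)
  clear h
  rcases le_total t 1.065 with h | h
  · exact W_step (by norm_num) h' h (by norm_num) (by unfold Kp TT S1; norm_num)
  clear h'
  rcases le_total t 1.135 with h' | h'
  · exact W_step (by norm_num) h h' (by norm_num) (by unfold Kp TT S1; norm_num)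
  clear h
  rcases le_total t 1.245 with h | h
  · exact W_step (by norm_num) h' h (by norm_num) (by unfold Kp TT S1; norm_num)
  clear h'
  rcases le_total t 1.4 with h' | h'
  · exact W_step (by norm_num) h h' (by norm_num) (by unfold Kp TT S1; norm_num)
  clear h
  rcases le_total t 1.56 with h | h
  · exact W_step (by norm_num) h' h (by norm_num) (by unfold Kp TT S1; norm_num)
  exact W_step (by norm_num) h ht1 (by norm_num) (by unfold Kp TT S1; norm_num)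

noncomputable def Pd (v z t : ℝ) : ℝ := S1 t + v * t + v ^ 2 * t ^ 3 / 2 - 0.36 * z * t ^ 3

noncomputable def PP (v z t : ℝ) : ℝ :=
  t ^ 2 / 2 + t ^ 4 / 12 + t ^ 6 / 45 + 17 * t ^ 8 / 2520 + 31 * t ^ 10 / 14175 +
    691 * t ^ 12 / 935550 + v * t ^ 2 / 2 + v ^ 2 * t ^ 4 / 8 - 0.09 * z * t ^ 4

noncomputable def UU (v z t : ℝ) : ℝ :=
  Real.cos t * (1 - v * t ^ 2 / 2 + z * t ^ 4 / 24) + Real.sin t * (z * t ^ 4 / 36)

/-- the polynomial inequality -/
theorem stuff {v t : ℝ} (hv0 : 0.047 ≤ v) (hv1 : v ≤ 0.1108) (ht : 0 ≤ t) (ht1 : t ≤ 1.571)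
    {z : ℝ} (hz : z = 2.6 * v ^ 2 + 0.0035) :
    (-(v * t) + z * t ^ 3 / 6) + z * t ^ 4 / 36 + Pd v z t * (1 - v * t ^ 2 / 2 + z * t ^ 4 / 24) ≤
      TT t * (1 - v * t ^ 2 / 2 + z * t ^ 4 / 24 - z * t ^ 3 / 9 - Pd v z t * (z * t ^ 4 / 36)) := by
  have hv : 0 ≤ v := by linarith
  have hz0 : 0 ≤ z := by rw [hz]; positivity
  have hz1 : z ≤ 0.0355 := by rw [hz]; nlinarith
  have ht2 : t ^ 2 ≤ 2.4681 := by nlinarith
  have hS := S1_nonneg ht
  have hT := TT_nonneg ht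
  have hW := W_all ht ht1
  -- the exact form of the difference
  set K : ℝ := 1 / 6 - 0.36 * (1 - v * t ^ 2 / 2 + z * t ^ 4 / 24) + t / 36 +
    TT t * (1 / 9 + t * Pd v z t / 36) with hK
  have hKp : K ≤ Kp t := by
    have h1 : Pd v z t ≤ S1 t + 0.111 * t + 0.0062 * t ^ 3 := by
      unfold Pd
      have e1 : v * t ≤ 0.111 * t := by nlinarith
      have e2 : v ^ 2 * t ^ 3 / 2 ≤ 0.0062 * t ^ 3 := by
        have : v ^ 2 ≤ 0.0124 := by nlinarith
        have h3 : 0 ≤ t ^ 3 := by positivity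
        nlinarith
      have e3 : 0 ≤ 0.36 * z * t ^ 3 := by positivity
      linarith
    have h2 : TT t * (1 / 9 + t * Pd v z t / 36) ≤
        TT t * (1 / 9 + t * (S1 t + 0.111 * t + 0.0062 * t ^ 3) / 36) := by
      gcongr
    have h3 : 0 ≤ z * t ^ 4 / 24 := by positivity
    have h4 : v * t ^ 2 / 2 ≤ 0.0555 * t ^ 2 := by nlinarith [sq_nonneg t]
    unfold Kp
    rw [hK]
    linarith
  have hzK : z * K ≤ (1 - 0.0555 * t ^ 2) * (0.00359 * t ^ 10 + 0.00145 * t ^ 12) := by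
    have h0 : 0 ≤ (1 - 0.0555 * t ^ 2) * (0.00359 * t ^ 10 + 0.00145 * t ^ 12) := by
      have : 0 ≤ 1 - 0.0555 * t ^ 2 := by linarith
      positivity
    rcases le_total K 0 with h | h
    · exact (mul_nonpos_of_nonneg_of_nonpos hz0 h).trans h0
    · calc z * K ≤ 0.0355 * K := mul_le_mul_of_nonneg_right hz1 h
        _ ≤ 0.0355 * Kp t := mul_le_mul_of_nonneg_left hKp (by norm_num)
        _ ≤ _ := hW
  have hR : (1 - 0.0555 * t ^ 2) * (0.00359 * t ^ 10 + 0.00145 * t ^ 12) ≤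
      (1 - v * t ^ 2 / 2 + z * t ^ 4 / 24) * (0.00359 * t ^ 10 + 0.00145 * t ^ 12) := by
    have h3 : 0 ≤ z * t ^ 4 / 24 := by positivity
    have h4 : v * t ^ 2 / 2 ≤ 0.0555 * t ^ 2 := by nlinarith [sq_nonneg t]
    have h5 : 0 ≤ 0.00359 * t ^ 10 + 0.00145 * t ^ 12 := by positivity
    exact mul_le_mul_of_nonneg_right (by linarith) h5
  have hE : 0 ≤ v ^ 3 / 4 - v * z / 24 - v ^ 2 * z * t ^ 2 / 48 := by
    have h1 : z / 24 + v * z * t ^ 2 / 48 ≤ v ^ 2 / 4 := by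
      have h2 : v * z * t ^ 2 / 48 ≤ v * z * 2.4681 / 48 := by
        have : 0 ≤ v * z := by positivity
        nlinarith
      rw [hz] at h2 ⊢
      nlinarith
    have h2 : v * (z / 24 + v * z * t ^ 2 / 48) ≤ v * (v ^ 2 / 4) :=
      mul_le_mul_of_nonneg_left h1 hv
    nlinarith
  have key : TT t * (1 - v * t ^ 2 / 2 + z * t ^ 4 / 24 - z * t ^ 3 / 9 -
      Pd v z t * (z * t ^ 4 / 36)) - ((-(v * t) + z * t ^ 3 / 6) + z * t ^ 4 / 36 +
      Pd v z t * (1 - v * t ^ 2 / 2 + z * t ^ 4 / 24)) =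
      t ^ 3 * ((1 - v * t ^ 2 / 2 + z * t ^ 4 / 24) * (0.00359 * t ^ 10 + 0.00145 * t ^ 12) -
        z * K) + t ^ 5 * (v ^ 3 / 4 - v * z / 24 - v ^ 2 * z * t ^ 2 / 48) := by
    rw [hK]
    unfold TT Pd
    ring
  have h1 : 0 ≤ t ^ 3 * ((1 - v * t ^ 2 / 2 + z * t ^ 4 / 24) *
      (0.00359 * t ^ 10 + 0.00145 * t ^ 12) - z * K) :=
    mul_nonneg (by positivity) (by linarith)
  have h2 : 0 ≤ t ^ 5 * (v ^ 3 / 4 - v * z / 24 - v ^ 2 * z * t ^ 2 / 48) :=
    mul_nonneg (by positivity) hE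
  linarith

theorem hasDerivAt_PP (v z t : ℝ) : HasDerivAt (PP v z) (Pd v z t) t := by
  have h : HasDerivAt (fun t : ℝ => t ^ 2 / 2 + t ^ 4 / 12 + t ^ 6 / 45 + 17 * t ^ 8 / 2520 +
    31 * t ^ 10 / 14175 + 691 * t ^ 12 / 935550 + v * t ^ 2 / 2 + v ^ 2 * t ^ 4 / 8 -
    0.09 * z * t ^ 4) _ t :=
    (((((((((hasDerivAt_pow 2 t).div_const 2).fun_add ((hasDerivAt_pow 4 t).div_const 12)).fun_add
      ((hasDerivAt_pow 6 t).div_const 45)).fun_add
      (((hasDerivAt_pow 8 t).const_mul 17).div_const 2520)).fun_add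
      (((hasDerivAt_pow 10 t).const_mul 31).div_const 14175)).fun_add
      (((hasDerivAt_pow 12 t).const_mul 691).div_const 935550)).fun_add
      (((hasDerivAt_pow 2 t).const_mul v).div_const 2)).fun_add
      (((hasDerivAt_pow 4 t).const_mul (v ^ 2)).div_const 8)).fun_sub
      ((hasDerivAt_pow 4 t).const_mul (0.09 * z))
  refine h.congr_deriv ?_
  unfold Pd S1
  norm_num
  ring

theorem hasDerivAt_UU (v z t : ℝ) : HasDerivAt (UU v z)
    (-Real.sin t * (1 - v * t ^ 2 / 2 + z * t ^ 4 / 24) +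
      Real.cos t * (-(v * t) + z * t ^ 3 / 6) +
      (Real.cos t * (z * t ^ 4 / 36) + Real.sin t * (z * t ^ 3 / 9))) t := by
  have h1 : HasDerivAt (fun t : ℝ => 1 - v * t ^ 2 / 2 + z * t ^ 4 / 24) _ t :=
    (((hasDerivAt_const t (1 : ℝ)).fun_sub (((hasDerivAt_pow 2 t).const_mul v).div_const 2)).fun_add
      (((hasDerivAt_pow 4 t).const_mul z).div_const 24))
  have h2 : HasDerivAt (fun t : ℝ => z * t ^ 4 / 36) _ t :=
    ((hasDerivAt_pow 4 t).const_mul z).div_const 36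
  have h := ((Real.hasDerivAt_cos t).fun_mul h1).fun_add ((Real.hasDerivAt_sin t).fun_mul h2)
  refine h.congr_deriv ?_
  norm_num
  ring

theorem UU_le {v t : ℝ} (hv0 : 0.047 ≤ v) (hv1 : v ≤ 0.1108) (ht : 0 ≤ t) (ht1 : t ≤ Real.pi / 2)
    {z : ℝ} (hz : z = 2.6 * v ^ 2 + 0.0035) : UU v z t ≤ Real.exp (-PP v z t) := by
  have hpi := Real.pi_lt_d4
  have hv : 0 ≤ v := by linarith
  have hz0 : 0 ≤ z := by rw [hz]; positivity
  have hz1 : z ≤ 0.0355 := by rw [hz]; nlinarith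
  have hd : ∀ x : ℝ, HasDerivAt (fun x => UU v z x * Real.exp (PP v z x)) _ x := fun x =>
    (hasDerivAt_UU v z x).fun_mul (hasDerivAt_PP v z x).exp
  have hanti : AntitoneOn (fun x => UU v z x * Real.exp (PP v z x)) (Icc 0 (Real.pi / 2)) := by
    refine antitoneOn_of_deriv_nonpos (convex_Icc _ _)
      (fun x _ => (hd x).continuousAt.continuousWithinAt)
      (fun x _ => (hd x).differentiableAt.differentiableWithinAt) ?_
    intro x hx
    rw [interior_Icc] at hx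
    rw [(hd x).deriv]
    have hx0 := hx.1.le
    have hx1 : x ≤ 1.571 := by linarith [hx.2]
    have hc : 0 ≤ Real.cos x := Real.cos_nonneg_of_neg_pi_div_two_le_of_le
      (by linarith [hx.1, Real.pi_pos]) hx.2.le
    have htan := tan_lb hx0 hx.2.le
    have hst := stuff hv0 hv1 hx0 hx1 hz
    have hco : 0 ≤ 1 - v * x ^ 2 / 2 + z * x ^ 4 / 24 - z * x ^ 3 / 9 -
        Pd v z x * (z * x ^ 4 / 36) := by
      have e1 : x ^ 2 ≤ 2.4681 := by nlinarith
      have e3 : x ^ 3 ≤ 3.878 := by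
        calc x ^ 3 ≤ 1.571 ^ 3 := by gcongr
          _ ≤ 3.878 := by norm_num
      have e4 : x ^ 4 ≤ 6.0913 := by
        calc x ^ 4 ≤ 1.571 ^ 4 := by gcongr
          _ ≤ 6.0913 := by norm_num
      have e5 : Pd v z x ≤ 8.2 := by
        have f1 := S1_mono hx0 hx1
        have f2 : S1 1.571 ≤ 7.98 := by unfold S1; norm_num
        have f3 : v * x ≤ 0.1108 * 1.571 := by gcongr
        have f4 : v ^ 2 * x ^ 3 ≤ 0.1108 ^ 2 * 3.878 := by gcongr
        have f5 : 0 ≤ z * x ^ 3 := by positivity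
        unfold Pd
        norm_num at f3 f4 ⊢
        linarith
      have e6 : Pd v z x * (z * x ^ 4 / 36) ≤ 8.2 * (0.0355 * 6.0913 / 36) := by
        have g1 : Pd v z x * (z * x ^ 4 / 36) ≤ 8.2 * (z * x ^ 4 / 36) :=
          mul_le_mul_of_nonneg_right e5 (by positivity)
        have g2 : z * x ^ 4 / 36 ≤ 0.0355 * 6.0913 / 36 := by gcongr
        linarith
      have e7 : v * x ^ 2 ≤ 0.1108 * 2.4681 := by gcongr
      have e8 : z * x ^ 3 ≤ 0.0355 * 3.878 := by gcongr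
      have e9 : 0 ≤ z * x ^ 4 / 24 := by positivity
      norm_num at e6 e7 e8 ⊢
      linarith
    have h1 := mul_le_mul_of_nonneg_right htan hco
    have h2 := mul_le_mul_of_nonneg_left hst hc
    have h3 : (-Real.sin x * (1 - v * x ^ 2 / 2 + z * x ^ 4 / 24) +
      Real.cos x * (-(v * x) + z * x ^ 3 / 6) +
      (Real.cos x * (z * x ^ 4 / 36) + Real.sin x * (z * x ^ 3 / 9))) +
      UU v z x * Pd v z x ≤ 0 := by
      unfold UU
      linarith
    have h4 : (-Real.sin x * (1 - v * x ^ 2 / 2 + z * x ^ 4 / 24) +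
      Real.cos x * (-(v * x) + z * x ^ 3 / 6) +
      (Real.cos x * (z * x ^ 4 / 36) + Real.sin x * (z * x ^ 3 / 9))) *
      Real.exp (PP v z x) + UU v z x * (Real.exp (PP v z x) * Pd v z x) =
      ((-Real.sin x * (1 - v * x ^ 2 / 2 + z * x ^ 4 / 24) +
      Real.cos x * (-(v * x) + z * x ^ 3 / 6) +
      (Real.cos x * (z * x ^ 4 / 36) + Real.sin x * (z * x ^ 3 / 9))) +
      UU v z x * Pd v z x) * Real.exp (PP v z x) := by ring
    rw [h4]
    exact mul_nonpos_of_nonpos_of_nonneg h3 (Real.exp_pos _).le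
  have h1 := hanti (left_mem_Icc.2 (by positivity)) ⟨ht, ht1⟩ ht
  have h2 : UU v z 0 * Real.exp (PP v z 0) = 1 := by simp [UU, PP]
  simp only [h2] at h1
  rw [Real.exp_neg, ← one_div, le_div_iff₀ (Real.exp_pos _)]
  exact h1

end Pool.Agent.Helper73.Pq
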