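import Mathlib
import Pool.Agent.Helper73.Pq.LLA

/-! Packet Pq-LL, numerical values of the integrals. -/

namespace Pool.Agent.Helper73.Pq

theorem hpi : (1.57079632679489661923 : ℝ) ≤ Real.pi / 2 ∧
    Real.pi / 2 ≤ 1.570796326794896619235 ∧ 0 ≤ Real.pi / 2 := by
  have h1 := Real.pi_gt_d20
  have h2 := Real.pi_lt_d20
  refine ⟨by linarith, by linarith, by positivity⟩

theorem hb1 : (1.57079632679489661 : ℝ) ≤ (Real.pi / 2) ^ 1 ∧ (Real.pi / 2) ^ 1 ≤ 1.57079632679489662 := by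
  obtain ⟨h1, h2, h3⟩ := hpi
  constructor
  · refine le_trans ?_ (pow_le_pow_left₀ (by norm_num) h1 1)
    norm_num
  · refine le_trans (pow_le_pow_left₀ h3 h2 1) ?_
    norm_num

theorem hb2 : (2.46740110027233965 : ℝ) ≤ (Real.pi / 2) ^ 2 ∧ (Real.pi / 2) ^ 2 ≤ 2.46740110027233966 := by
  obtain ⟨h1, h2, h3⟩ := hpi
  constructor
  · refine le_trans ?_ (pow_le_pow_left₀ (by norm_num) h1 2)
    norm_num
  · refine le_trans (pow_le_pow_left₀ h3 h2 2) ?_
    norm_num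

theorem hb3 : (3.87578458503747752 : ℝ) ≤ (Real.pi / 2) ^ 3 ∧ (Real.pi / 2) ^ 3 ≤ 3.87578458503747753 := by
  obtain ⟨h1, h2, h3⟩ := hpi
  constructor
  · refine le_trans ?_ (pow_le_pow_left₀ (by norm_num) h1 3)
    norm_num
  · refine le_trans (pow_le_pow_left₀ h3 h2 3) ?_
    norm_num

theorem hb4 : (6.08806818962515232 : ℝ) ≤ (Real.pi / 2) ^ 4 ∧ (Real.pi / 2) ^ 4 ≤ 6.08806818962515233 := by
  obtain ⟨h1, h2, h3⟩ := hpi
  constructor
  · refine le_trans ?_ (pow_le_pow_left₀ (by norm_num) h1 4)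
    norm_num
  · refine le_trans (pow_le_pow_left₀ h3 h2 4) ?_
    norm_num

theorem hb5 : (9.56311514954004541 : ℝ) ≤ (Real.pi / 2) ^ 5 ∧ (Real.pi / 2) ^ 5 ≤ 9.56311514954004542 := by
  obtain ⟨h1, h2, h3⟩ := hpi
  constructor
  · refine le_trans ?_ (pow_le_pow_left₀ (by norm_num) h1 5)
    norm_num
  · refine le_trans (pow_le_pow_left₀ h3 h2 5) ?_
    norm_num

theorem hb6 : (15.02170614961413182 : ℝ) ≤ (Real.pi / 2) ^ 6 ∧ (Real.pi / 2) ^ 6 ≤ 15.02170614961413183 := by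
  obtain ⟨h1, h2, h3⟩ := hpi
  constructor
  · refine le_trans ?_ (pow_le_pow_left₀ (by norm_num) h1 6)
    norm_num
  · refine le_trans (pow_le_pow_left₀ h3 h2 6) ?_
    norm_num

theorem hb7 : (23.59604084200618802 : ℝ) ≤ (Real.pi / 2) ^ 7 ∧ (Real.pi / 2) ^ 7 ≤ 23.59604084200618803 := by
  obtain ⟨h1, h2, h3⟩ := hpi
  constructor
  · refine le_trans ?_ (pow_le_pow_left₀ (by norm_num) h1 7)
    norm_num
  · refine le_trans (pow_le_pow_left₀ h3 h2 7) ?_
    norm_num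

theorem hb8 : (37.06457428152567971 : ℝ) ≤ (Real.pi / 2) ^ 8 ∧ (Real.pi / 2) ^ 8 ≤ 37.06457428152567972 := by
  obtain ⟨h1, h2, h3⟩ := hpi
  constructor
  · refine le_trans ?_ (pow_le_pow_left₀ (by norm_num) h1 8)
    norm_num
  · refine le_trans (pow_le_pow_left₀ h3 h2 8) ?_
    norm_num

theorem hb9 : (58.22089713563713216 : ℝ) ≤ (Real.pi / 2) ^ 9 ∧ (Real.pi / 2) ^ 9 ≤ 58.22089713563713217 := by
  obtain ⟨h1, h2, h3⟩ := hpi
  constructor
  · refine le_trans ?_ (pow_le_pow_left₀ (by norm_num) h1 9)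
    norm_num
  · refine le_trans (pow_le_pow_left₀ h3 h2 9) ?_
    norm_num

theorem hb10 : (91.45317136336232516 : ℝ) ≤ (Real.pi / 2) ^ 10 ∧ (Real.pi / 2) ^ 10 ≤ 91.45317136336232518 := by
  obtain ⟨h1, h2, h3⟩ := hpi
  constructor
  · refine le_trans ?_ (pow_le_pow_left₀ (by norm_num) h1 10)
    norm_num
  · refine le_trans (pow_le_pow_left₀ h3 h2 10) ?_
    norm_num

theorem hb11 : (143.65430565131376811 : ℝ) ≤ (Real.pi / 2) ^ 11 ∧ (Real.pi / 2) ^ 11 ≤ 143.65430565131376813 := by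
  obtain ⟨h1, h2, h3⟩ := hpi
  constructor
  · refine le_trans ?_ (pow_le_pow_left₀ (by norm_num) h1 11)
    norm_num
  · refine le_trans (pow_le_pow_left₀ h3 h2 11) ?_
    norm_num

theorem hb12 : (225.65165564535502593 : ℝ) ≤ (Real.pi / 2) ^ 12 ∧ (Real.pi / 2) ^ 12 ≤ 225.65165564535502594 := by
  obtain ⟨h1, h2, h3⟩ := hpi
  constructor
  · refine le_trans ?_ (pow_le_pow_left₀ (by norm_num) h1 12)
    norm_num
  · refine le_trans (pow_le_pow_left₀ h3 h2 12) ?_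
    norm_num

theorem hb13 : (354.45279182291057189 : ℝ) ≤ (Real.pi / 2) ^ 13 ∧ (Real.pi / 2) ^ 13 ≤ 354.45279182291057191 := by
  obtain ⟨h1, h2, h3⟩ := hpi
  constructor
  · refine le_trans ?_ (pow_le_pow_left₀ (by norm_num) h1 13)
    norm_num
  · refine le_trans (pow_le_pow_left₀ h3 h2 13) ?_
    norm_num

theorem hb14 : (556.77314341762409485 : ℝ) ≤ (Real.pi / 2) ^ 14 ∧ (Real.pi / 2) ^ 14 ≤ 556.77314341762409488 := by
  obtain ⟨h1, h2, h3⟩ := hpi
  constructor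
  · refine le_trans ?_ (pow_le_pow_left₀ (by norm_num) h1 14)
    norm_num
  · refine le_trans (pow_le_pow_left₀ h3 h2 14) ?_
    norm_num

theorem hb15 : (874.57720853845210122 : ℝ) ≤ (Real.pi / 2) ^ 15 ∧ (Real.pi / 2) ^ 15 ≤ 874.57720853845210127 := by
  obtain ⟨h1, h2, h3⟩ := hpi
  constructor
  · refine le_trans ?_ (pow_le_pow_left₀ (by norm_num) h1 15)
    norm_num
  · refine le_trans (pow_le_pow_left₀ h3 h2 15) ?_
    norm_num

theorem kb0 : (1.00000000000000000 : ℝ) ≤ Kn 0 ∧ Kn 0 ≤ 1.00000000000000000 := by rw [K0]; norm_num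

theorem jb0 : (0.00000000000000000 : ℝ) ≤ Jn 0 ∧ Jn 0 ≤ 0.00000000000000000 := by rw [J0]; norm_num

theorem jb1 : (-0.50000000000000000 : ℝ) ≤ Jn 1 ∧ Jn 1 ≤ -0.50000000000000000 := by
  have h := J_succ 0
  have h1 := kb0
  norm_num at h h1
  constructor <;> linarith [h1.1, h1.2]

theorem kb1 : (0.78539816339744830 : ℝ) ≤ Kn 1 ∧ Kn 1 ≤ 0.78539816339744831 := by
  have h := K_succ 0
  have h1 := jb0
  have h2 := hb1
  norm_num at h h1
  constructor <;> linarith [h1.1, h1.2, h2.1, h2.2]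

theorem jb2 : (-0.78539816339744831 : ℝ) ≤ Jn 2 ∧ Jn 2 ≤ -0.78539816339744830 := by
  have h := J_succ 1
  have h1 := kb1
  norm_num at h h1
  constructor <;> linarith [h1.1, h1.2]

theorem kb2 : (0.73370055013616982 : ℝ) ≤ Kn 2 ∧ Kn 2 ≤ 0.73370055013616983 := by
  have h := K_succ 1
  have h1 := jb1
  have h2 := hb2
  norm_num at h h1
  constructor <;> linarith [h1.1, h1.2, h2.1, h2.2]

theorem jb3 : (-1.10055082520425475 : ℝ) ≤ Jn 3 ∧ Jn 3 ≤ -1.10055082520425473 := by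
  have h := J_succ 2
  have h1 := kb2
  norm_num at h h1
  constructor <;> linarith [h1.1, h1.2]

theorem kb3 : (0.75979504742256629 : ℝ) ≤ Kn 3 ∧ Kn 3 ≤ 0.75979504742256632 := by
  have h := K_succ 2
  have h1 := jb2
  have h2 := hb3
  norm_num at h h1
  constructor <;> linarith [h1.1, h1.2, h2.1, h2.2]

theorem jb4 : (-1.51959009484513264 : ℝ) ≤ Jn 4 ∧ Jn 4 ≤ -1.51959009484513258 := by
  have h := J_succ 3
  have h1 := kb3
  norm_num at h h1
  constructor <;> linarith [h1.1, h1.2]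

theorem kb4 : (0.84293244440406666 : ℝ) ≤ Kn 4 ∧ Kn 4 ≤ 0.84293244440406671 := by
  have h := K_succ 3
  have h1 := jb3
  have h2 := hb4
  norm_num at h h1
  constructor <;> linarith [h1.1, h1.2, h2.1, h2.2]

theorem jb5 : (-2.10733111101016678 : ℝ) ≤ Jn 5 ∧ Jn 5 ≤ -2.10733111101016665 := by
  have h := J_succ 4
  have h1 := kb4
  norm_num at h h1
  constructor <;> linarith [h1.1, h1.2]

theorem kb5 : (0.98258233765719110 : ℝ) ≤ Kn 5 ∧ Kn 5 ≤ 0.98258233765719126 := by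
  have h := K_succ 4
  have h1 := jb4
  have h2 := hb5
  norm_num at h h1
  constructor <;> linarith [h1.1, h1.2, h2.1, h2.2]

theorem jb6 : (-2.94774701297157378 : ℝ) ≤ Jn 6 ∧ Jn 6 ≤ -2.94774701297157330 := by
  have h := J_succ 5
  have h1 := kb5
  norm_num at h h1
  constructor <;> linarith [h1.1, h1.2]

theorem kb6 : (1.18885974177656557 : ℝ) ≤ Kn 6 ∧ Kn 6 ≤ 1.18885974177656597 := by
  have h := K_succ 5
  have h1 := jb5
  have h2 := hb6
  norm_num at h h1
  constructor <;> linarith [h1.1, h1.2, h2.1, h2.2]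

theorem jb7 : (-4.16100909621798090 : ℝ) ≤ Jn 7 ∧ Jn 7 ≤ -4.16100909621797949 := by
  have h := J_succ 6
  have h1 := kb6
  norm_num at h h1
  constructor <;> linarith [h1.1, h1.2]

theorem kb7 : (1.48090587560258578 : ℝ) ≤ Kn 7 ∧ Kn 7 ≤ 1.48090587560258747 := by
  have h := K_succ 6
  have h1 := jb6
  have h2 := hb7
  norm_num at h h1
  constructor <;> linarith [h1.1, h1.2, h2.1, h2.2]

theorem jb8 : (-5.92362350241034988 : ℝ) ≤ Jn 8 ∧ Jn 8 ≤ -5.92362350241034312 := by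
  have h := J_succ 7
  have h1 := kb7
  norm_num at h h1
  constructor <;> linarith [h1.1, h1.2]

theorem kb8 : (1.88825075589091625 : ℝ) ≤ Kn 8 ∧ Kn 8 ≤ 1.88825075589092190 := by
  have h := K_succ 7
  have h1 := jb7
  have h2 := hb8
  norm_num at h h1
  constructor <;> linarith [h1.1, h1.2, h2.1, h2.2]

theorem jb9 : (-8.49712840150914855 : ℝ) ≤ Jn 9 ∧ Jn 9 ≤ -8.49712840150912312 := by
  have h := J_succ 8
  have h1 := kb8
  norm_num at h h1
  constructor <;> linarith [h1.1, h1.2]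

theorem kb9 : (2.45414280697199162 : ℝ) ≤ Kn 9 ∧ Kn 9 ≤ 2.45414280697202205 := by
  have h := K_succ 8
  have h1 := jb8
  have h2 := hb9
  norm_num at h h1
  constructor <;> linarith [h1.1, h1.2, h2.1, h2.2]

theorem jb10 : (-12.27071403486011025 : ℝ) ≤ Jn 10 ∧ Jn 10 ≤ -12.27071403485995810 := by
  have h := J_succ 9
  have h1 := kb9
  norm_num at h h1
  constructor <;> linarith [h1.1, h1.2]

theorem kb10 : (3.24094367413541983 : ℝ) ≤ Kn 10 ∧ Kn 10 ≤ 3.24094367413554699 := by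
  have h := K_succ 9
  have h1 := jb9
  have h2 := hb10
  norm_num at h h1
  constructor <;> linarith [h1.1, h1.2, h2.1, h2.2]

theorem jb11 : (-17.82519020774550845 : ℝ) ≤ Jn 11 ∧ Jn 11 ≤ -17.82519020774480906 := by
  have h := J_succ 10
  have h1 := kb10
  norm_num at h h1
  constructor <;> linarith [h1.1, h1.2]

theorem kb11 : (4.33822563392627768 : ℝ) ≤ Kn 11 ∧ Kn 11 ≤ 4.33822563392711452 := by
  have h := K_succ 10
  have h1 := jb10
  have h2 := hb11
  norm_num at h h1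
  constructor <;> linarith [h1.1, h1.2, h2.1, h2.2]

theorem jb12 : (-26.02935380356268712 : ℝ) ≤ Jn 12 ∧ Jn 12 ≤ -26.02935380355766608 := by
  have h := J_succ 11
  have h1 := kb11
  norm_num at h h1
  constructor <;> linarith [h1.1, h1.2]

theorem kb12 : (5.87468657620446226 : ℝ) ≤ Kn 12 ∧ Kn 12 ≤ 5.87468657620865861 := by
  have h := K_succ 11
  have h1 := jb11
  have h2 := hb12
  norm_num at h h1
  constructor <;> linarith [h1.1, h1.2, h2.1, h2.2]

theorem jb13 : (-38.18546274535628097 : ℝ) ≤ Jn 13 ∧ Jn 13 ≤ -38.18546274532900469 := by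
  have h := J_succ 12
  have h1 := kb12
  norm_num at h h1
  constructor <;> linarith [h1.1, h1.2]

theorem kb13 : (8.03559618829781966 : ℝ) ≤ Kn 13 ∧ Kn 13 ≤ 8.03559618833045644 := by
  have h := K_succ 12
  have h1 := jb12
  have h2 := hb13
  norm_num at h h1
  constructor <;> linarith [h1.1, h1.2, h2.1, h2.2]

theorem jb14 : (-56.24917331831319508 : ℝ) ≤ Jn 14 ∧ Jn 14 ≤ -56.24917331808473762 := by
  have h := J_succ 13
  have h1 := kb13
  norm_num at h h1
  constructor <;> linarith [h1.1, h1.2]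

theorem kb14 : (11.08833249131808063 : ℝ) ≤ Kn 14 ∧ Kn 14 ≤ 11.08833249150901461 := by
  have h := K_succ 13
  have h1 := jb13
  have h2 := hb14
  norm_num at h h1
  constructor <;> linarith [h1.1, h1.2, h2.1, h2.2]

end Pool.Agent.Helper73.Pq
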