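import Mathlib
import Pool.Agent.Helper73.Pq.LLA
import Pool.Agent.Helper73.Pq.LLN

/-! Packet Pq-LL, part C: the integral of the explicit lower bound. -/

namespace Pool.Agent.Helper73.Pq

open MeasureTheory Set

/-- `∫ t^(2n) cos² t` -/
noncomputable def Mn (n : ℕ) : ℝ := ((Real.pi / 2) ^ (2 * n + 1) / (2 * n + 1) + Jn (2 * n)) / 2

theorem int_fin {m : ℕ} (a : Fin m → ℝ) (f : ℕ → ℝ → ℝ) (hf : ∀ i, Continuous (f i)) :
    ∫ t in (0 : ℝ)..(Real.pi / 2), ∑ i, a i * f i t =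
      ∑ i : Fin m, a i * ∫ t in (0 : ℝ)..(Real.pi / 2), f i t := by
  rw [intervalIntegral.integral_finsetSum]
  · simp only [intervalIntegral.integral_const_mul]
  · intro i _
    exact ((hf i).const_mul (a i)).intervalIntegrable _ _

noncomputable def f1 (n : ℕ) (t : ℝ) : ℝ := t ^ (2 * n) / 2

noncomputable def f2 (n : ℕ) (t : ℝ) : ℝ := t ^ (2 * n) * Real.cos (2 * t) / 2

noncomputable def f3 (n : ℕ) (t : ℝ) : ℝ := t ^ n * Real.sin (2 * t)

theorem f1c (n : ℕ) : Continuous (f1 n) := by unfold f1; fun_prop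

theorem f2c (n : ℕ) : Continuous (f2 n) := by unfold f2; fun_prop

theorem f3c (n : ℕ) : Continuous (f3 n) := by unfold f3; fun_prop

theorem int_gen (p0 p1 p2 p3 p4 p5 v z : ℝ) :
    ∫ t in (0 : ℝ)..(Real.pi / 2), (Real.cos t ^ 2 * (1 - v * t ^ 2 / 2) ^ 2 -
      Real.sin (2 * t) * (0.001 * t ^ 3 + z * t ^ 4 / 36)) *
      (p0 + p1 * t ^ 2 + p2 * t ^ 4 + p3 * t ^ 6 + p4 * t ^ 8 + p5 * t ^ 10) =
    p0 * Mn 0 + (p1 - v * p0) * Mn 1 + (p2 - v * p1 + v ^ 2 / 4 * p0) * Mn 2 +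
      (p3 - v * p2 + v ^ 2 / 4 * p1) * Mn 3 + (p4 - v * p3 + v ^ 2 / 4 * p2) * Mn 4 +
      (p5 - v * p4 + v ^ 2 / 4 * p3) * Mn 5 + (-v * p5 + v ^ 2 / 4 * p4) * Mn 6 +
      (v ^ 2 / 4 * p5) * Mn 7 -
      (0.001 * p0 * Kn 3 + z / 36 * p0 * Kn 4 + 0.001 * p1 * Kn 5 + z / 36 * p1 * Kn 6 +
        0.001 * p2 * Kn 7 + z / 36 * p2 * Kn 8 + 0.001 * p3 * Kn 9 + z / 36 * p3 * Kn 10 +
        0.001 * p4 * Kn 11 + z / 36 * p4 * Kn 12 + 0.001 * p5 * Kn 13 +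
        z / 36 * p5 * Kn 14) := by
  set a : Fin 8 → ℝ := ![p0, p1 - v * p0, p2 - v * p1 + v ^ 2 / 4 * p0,
      p3 - v * p2 + v ^ 2 / 4 * p1, p4 - v * p3 + v ^ 2 / 4 * p2,
      p5 - v * p4 + v ^ 2 / 4 * p3, -v * p5 + v ^ 2 / 4 * p4, v ^ 2 / 4 * p5] with ha
  set b : Fin 15 → ℝ := ![0, 0, 0, 0.001 * p0, z / 36 * p0, 0.001 * p1, z / 36 * p1,
      0.001 * p2, z / 36 * p2, 0.001 * p3, z / 36 * p3, 0.001 * p4, z / 36 * p4,
      0.001 * p5, z / 36 * p5] with hb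
  have h1 : (fun t : ℝ => (Real.cos t ^ 2 * (1 - v * t ^ 2 / 2) ^ 2 -
      Real.sin (2 * t) * (0.001 * t ^ 3 + z * t ^ 4 / 36)) *
      (p0 + p1 * t ^ 2 + p2 * t ^ 4 + p3 * t ^ 6 + p4 * t ^ 8 + p5 * t ^ 10)) =
      fun t => (∑ i, a i * f1 i t + ∑ i, a i * f2 i t) - ∑ i, b i * f3 i t := by
    funext t
    rw [Real.cos_sq]
    simp [ha, hb, Fin.sum_univ_succ, f1, f2, f3]
    ring
  have c1 : Continuous fun t => ∑ i, a i * f1 i t :=
    continuous_finsetSum _ fun i _ => (f1c i).const_mul (a i)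
  have c2 : Continuous fun t => ∑ i, a i * f2 i t :=
    continuous_finsetSum _ fun i _ => (f2c i).const_mul (a i)
  have c3 : Continuous fun t => ∑ i, b i * f3 i t :=
    continuous_finsetSum _ fun i _ => (f3c i).const_mul (b i)
  have c12 : Continuous fun t => (∑ i, a i * f1 i t + ∑ i, a i * f2 i t) := c1.add c2
  rw [h1, intervalIntegral.integral_sub (c12.intervalIntegrable _ _)
    (c3.intervalIntegrable _ _), intervalIntegral.integral_add (c1.intervalIntegrable _ _)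
    (c2.intervalIntegrable _ _), int_fin a f1 f1c, int_fin a f2 f2c, int_fin b f3 f3c]
  · have e1 : ∀ n : ℕ, ∫ t in (0 : ℝ)..(Real.pi / 2), f1 n t =
        (Real.pi / 2) ^ (2 * n + 1) / (2 * n + 1) / 2 := by
      intro n
      unfold f1
      rw [intervalIntegral.integral_div, integral_pow]
      push_cast
      simp
    have e2 : ∀ n : ℕ, ∫ t in (0 : ℝ)..(Real.pi / 2), f2 n t = Jn (2 * n) / 2 := by
      intro n
      unfold f2
      rw [intervalIntegral.integral_div]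
      rfl
    have e3 : ∀ n : ℕ, ∫ t in (0 : ℝ)..(Real.pi / 2), f3 n t = Kn n :=
      fun n => rfl
    simp only [e1, e2, e3]
    have e4 : ∀ n : ℕ, (Real.pi / 2) ^ (2 * n + 1) / (2 * n + 1) / 2 = Mn n - Jn (2 * n) / 2 := by
      intro n
      unfold Mn
      ring
    simp only [e4]
    simp [ha, hb, Fin.sum_univ_succ]
    ring

end Pool.Agent.Helper73.Pq
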