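import Mathlib
import Pool.Agent.Helper53.Pq.Goals
import Pool.Agent.Helper73.Pq.LLB
import Pool.Agent.Helper73.Pq.LLC

/-! Packet Pq-LL: `GLL`. -/

namespace Pool.Agent.Helper73.Pq

open MeasureTheory Set
open Pool.Agent.Helper53.Pq

noncomputable def cc0 : ℝ := (1/2) * Mn 0 +
  (49811/600000) * Mn 1 +
  (1/45) * Mn 2 +
  (17/2520) * Mn 3 +
  (31/14175) * Mn 4 +
  (691/935550) * Mn 5 +
  (-1/2000) * Kn 3 +
  (-7/144000) * Kn 4 +
  (-49811/600000000) * Kn 5 +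
  (-348677/43200000000) * Kn 6 +
  (-1/45000) * Kn 7 +
  (-7/3240000) * Kn 8 +
  (-17/2520000) * Kn 9 +
  (-17/25920000) * Kn 10 +
  (-31/14175000) * Kn 11 +
  (-31/145800000) * Kn 12 +
  (-691/935550000) * Kn 13 +
  (-691/9622800000) * Kn 14

noncomputable def cc1 : ℝ := (1/2) * Mn 0 +
  (-1/2) * Mn 1 +
  (-49811/600000) * Mn 2 +
  (-1/45) * Mn 3 +
  (-17/2520) * Mn 4 +
  (-31/14175) * Mn 5 +
  (-691/935550) * Mn 6 +
  (-1/2000) * Kn 3 +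
  (-7/144000) * Kn 4

noncomputable def cc2 : ℝ := (-609/1000) * Mn 1 +
  (1/8) * Mn 2 +
  (49811/2400000) * Mn 3 +
  (1/180) * Mn 4 +
  (17/10080) * Mn 5 +
  (31/56700) * Mn 6 +
  (691/3742200) * Mn 7 +
  (-13/360) * Kn 4 +
  (109/1000000) * Kn 5 +
  (-1292797/216000000) * Kn 6 +
  (-13/8100) * Kn 8 +
  (-221/453600) * Kn 10 +
  (-403/2551500) * Kn 12 +
  (-8983/168399000) * Kn 14

noncomputable def cc3 : ℝ := (117/500) * Mn 2 +
  (-13/360) * Kn 4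

noncomputable def cc4 : ℝ := (-109/4000) * Mn 3 +
  (1417/180000) * Kn 6

theorem cc_bounds : 0.41982 ≤ cc0 ∧ 0.24147 ≤ cc1 ∧ -0.16616 ≤ cc2 ∧ 0 ≤ cc3 ∧ 0 ≤ cc4 := by
  have m0 : Mn 0 = ((Real.pi / 2) ^ 1 / 1 + Jn 0) / 2 := by unfold Mn; norm_num
  have m1 : Mn 1 = ((Real.pi / 2) ^ 3 / 3 + Jn 2) / 2 := by unfold Mn; norm_num
  have m2 : Mn 2 = ((Real.pi / 2) ^ 5 / 5 + Jn 4) / 2 := by unfold Mn; norm_num
  have m3 : Mn 3 = ((Real.pi / 2) ^ 7 / 7 + Jn 6) / 2 := by unfold Mn; norm_num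
  have m4 : Mn 4 = ((Real.pi / 2) ^ 9 / 9 + Jn 8) / 2 := by unfold Mn; norm_num
  have m5 : Mn 5 = ((Real.pi / 2) ^ 11 / 11 + Jn 10) / 2 := by unfold Mn; norm_num
  have m6 : Mn 6 = ((Real.pi / 2) ^ 13 / 13 + Jn 12) / 2 := by unfold Mn; norm_num
  have m7 : Mn 7 = ((Real.pi / 2) ^ 15 / 15 + Jn 14) / 2 := by unfold Mn; norm_num
  have h1 := hb1
  have j0 := jb0
  have h3 := hb3
  have j2 := jb2
  have h5 := hb5
  have j4 := jb4
  have h7 := hb7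
  have j6 := jb6
  have h9 := hb9
  have j8 := jb8
  have h11 := hb11
  have j10 := jb10
  have h13 := hb13
  have j12 := jb12
  have h15 := hb15
  have j14 := jb14
  have k3 := kb3
  have k4 := kb4
  have k5 := kb5
  have k6 := kb6
  have k7 := kb7
  have k8 := kb8
  have k9 := kb9
  have k10 := kb10
  have k11 := kb11
  have k12 := kb12
  have k13 := kb13
  have k14 := kb14
  unfold cc0 cc1 cc2 cc3 cc4
  rw [m0, m1, m2, m3, m4, m5, m6, m7]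
  refine ⟨?_, ?_, ?_, ?_, ?_⟩ <;> linarith [h1.1, h1.2, h3.1, h3.2, h5.1, h5.2, h7.1, h7.2, h9.1, h9.2, h11.1, h11.2, h13.1, h13.2, h15.1, h15.2, j0.1, j0.2, j2.1, j2.2, j4.1, j4.2, j6.1, j6.2, j8.1, j8.2, j10.1, j10.2, j12.1, j12.2, j14.1, j14.2, k3.1, k3.2, k4.1, k4.2, k5.1, k5.2, k6.1, k6.2, k7.1, k7.2, k8.1, k8.2, k9.1, k9.2, k10.1, k10.2, k11.1, k11.2, k12.1, k12.2, k13.1, k13.2, k14.1, k14.2]

theorem E_eq (v z : ℝ) (hz : z = 2.6 * v ^ 2 + 0.0035) :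
    ∫ t in (0 : ℝ)..(Real.pi / 2), (Real.cos t ^ 2 * (1 - v * t ^ 2 / 2) ^ 2 -
      Real.sin (2 * t) * (0.001 * t ^ 3 + z * t ^ 4 / 36)) *
      ((1 + v) / 2 + (1 / 12 + v ^ 2 / 8 - 0.09 * z) * t ^ 2 + 1 / 45 * t ^ 4 +
        17 / 2520 * t ^ 6 + 31 / 14175 * t ^ 8 + 691 / 935550 * t ^ 10) =
    cc0 + cc1 * v + cc2 * v ^ 2 + cc3 * v ^ 3 + cc4 * v ^ 4 := by
  rw [int_gen, hz]
  unfold cc0 cc1 cc2 cc3 cc4
  ring

/-- pointwise facts on `(0, π/2]` -/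
theorem pointwise {θ : ℝ} {φ : ℝ → ℝ} (hφ : Fn θ φ) (hv0 : 0.047 ≤ vv θ) (hv1 : vv θ ≤ 0.1108)
    {t : ℝ} (ht : 0 < t) (ht1 : t ≤ Real.pi / 2) :
    (Real.cos t ^ 2 * (1 - vv θ * t ^ 2 / 2) ^ 2 -
      Real.sin (2 * t) * (0.001 * t ^ 3 + zz θ * t ^ 4 / 36)) * PP (vv θ) (zz θ) t ≤
      φ t ^ 2 * (-Real.log |φ t|) := by
  have hpi := Real.pi_lt_d4
  obtain ⟨A, B, hAB, hA1, hA2, hA3, hB1, hB2⟩ := hφ.ab t ht.le
  have hzdef : zz θ = 2.6 * vv θ ^ 2 + 0.0035 := rfl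
  have hUU := UU_le hv0 hv1 ht.le ht1 hzdef
  generalize vv θ = v at *
  generalize zz θ = z at *
  have hv : 0 ≤ v := by linarith
  have hz0 : 0 ≤ z := by rw [hzdef]; positivity
  have hz1 : z ≤ 0.03543 := by rw [hzdef]; nlinarith
  have htb : t ≤ 1.5708 := by linarith
  have e2 : t ^ 2 ≤ 2.46742 := by
    calc t ^ 2 ≤ 1.5708 ^ 2 := by gcongr
      _ ≤ 2.46742 := by norm_num
  have e3 : t ^ 3 ≤ 3.87582 := by
    calc t ^ 3 ≤ 1.5708 ^ 3 := by gcongr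
      _ ≤ 3.87582 := by norm_num
  have e4 : t ^ 4 ≤ 6.08813 := by
    calc t ^ 4 ≤ 1.5708 ^ 4 := by gcongr
      _ ≤ 6.08813 := by norm_num
  have hc : 0 ≤ Real.cos t := Real.cos_nonneg_of_neg_pi_div_two_le_of_le
      (by linarith [Real.pi_pos]) ht1
  have hs : 0 ≤ Real.sin t := Real.sin_nonneg_of_nonneg_of_le_pi ht.le
      (by linarith [Real.pi_pos])
  have hs1 : Real.sin t ≤ 1 := Real.sin_le_one t
  have hvt : v * t ^ 2 ≤ 0.1108 * 2.46742 := by gcongr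
  have hA0 : 0 ≤ 1 - v * t ^ 2 / 2 := by norm_num at hvt ⊢; linarith
  have hApos : 0 ≤ A := hA0.trans hA1
  have hAle : A ≤ 1 := (le_abs_self A).trans hA3
  have hβ0 : 0 ≤ 0.001 * t ^ 3 + z * t ^ 4 / 36 := by positivity
  -- size of P
  have hP0 : 0 ≤ PP v z t := by
    have h1 : 0.09 * z * t ^ 4 ≤ t ^ 2 / 2 := by
      have h2 : 0.09 * z * t ^ 4 = t ^ 2 * (0.09 * (z * t ^ 2)) := by ring
      have h3 : z * t ^ 2 ≤ 0.03543 * 2.46742 := by gcongr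
      rw [h2]
      have h4 : 0.09 * (z * t ^ 2) ≤ 1 / 2 := by norm_num at h3 ⊢; linarith
      have h5 : 0 ≤ t ^ 2 := by positivity
      nlinarith
    have h6 : 0 ≤ t ^ 4 / 12 + t ^ 6 / 45 + 17 * t ^ 8 / 2520 + 31 * t ^ 10 / 14175 +
      691 * t ^ 12 / 935550 + v * t ^ 2 / 2 + v ^ 2 * t ^ 4 / 8 := by positivity
    unfold PP
    linarith
  have hP3 : PP v z t ≤ 3 := by
    have g6 : t ^ 6 ≤ 1.5708 ^ 6 := by gcongr
    have g8 : t ^ 8 ≤ 1.5708 ^ 8 := by gcongr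
    have g10 : t ^ 10 ≤ 1.5708 ^ 10 := by gcongr
    have g12 : t ^ 12 ≤ 1.5708 ^ 12 := by gcongr
    have gv : v ^ 2 * t ^ 4 ≤ 0.1108 ^ 2 * 6.08813 := by gcongr
    have gz : 0 ≤ 0.09 * z * t ^ 4 := by positivity
    unfold PP
    norm_num at g6 g8 g10 g12 gv hvt ⊢
    linarith
  have hexp3 : (0.01 : ℝ) ≤ Real.exp (-PP v z t) := by
    have h1 : Real.exp (-3) ≤ Real.exp (-PP v z t) := Real.exp_le_exp.2 (by linarith)
    have h2 : (0.01 : ℝ) ≤ Real.exp (-3) := by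
      rw [Real.exp_neg, ← one_div, le_div_iff₀ (Real.exp_pos _)]
      have h3 : Real.exp 3 = Real.exp 1 ^ 3 := by rw [← Real.exp_nat_mul]; norm_num
      have h4 := Real.exp_one_lt_d9
      have h5 : Real.exp 1 ^ 3 ≤ 2.7182818286 ^ 3 := by
        have := (Real.exp_pos 1).le
        gcongr
      rw [h3]
      norm_num at h5 ⊢
      linarith
    linarith
  -- bounds of φ
  have hup : φ t ≤ Real.exp (-PP v z t) := by
    refine le_trans ?_ hUU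
    rw [hAB]
    unfold UU
    have h1 := mul_le_mul_of_nonneg_left hA2 hc
    have h2 := mul_le_mul_of_nonneg_left hB1 hs
    linarith
  have hlow : -φ t ≤ 0.01 := by
    rw [hAB]
    have h1 : 0 ≤ Real.cos t * A := mul_nonneg hc hApos
    have h2 : Real.sin t * B ≤ Real.sin t * (0.001 * t ^ 3 + z * t ^ 4 / 36) :=
      mul_le_mul_of_nonneg_left hB2 hs
    have h3 : Real.sin t * (0.001 * t ^ 3 + z * t ^ 4 / 36) ≤
        1 * (0.001 * t ^ 3 + z * t ^ 4 / 36) := mul_le_mul_of_nonneg_right hs1 hβ0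
    have h4 : z * t ^ 4 ≤ 0.03543 * 6.08813 := by gcongr
    norm_num at h4 ⊢
    linarith
  have habs : |φ t| ≤ Real.exp (-PP v z t) := abs_le'.2 ⟨hup, hlow.trans hexp3⟩
  have hlog : φ t ^ 2 * PP v z t ≤ φ t ^ 2 * (-Real.log |φ t|) := by
    rcases eq_or_ne (φ t) 0 with h0 | h0
    · simp [h0]
    · have h1 : Real.log |φ t| ≤ -PP v z t := by
        rw [← Real.log_exp (-PP v z t)]
        exact Real.log_le_log (abs_pos.2 h0) habs
      exact mul_le_mul_of_nonneg_left (by linarith) (sq_nonneg _)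
  refine le_trans (mul_le_mul_of_nonneg_right ?_ hP0) hlog
  -- φ² from below
  have h1 : φ t ^ 2 = Real.cos t ^ 2 * A ^ 2 - 2 * Real.sin t * Real.cos t * (A * B) +
      Real.sin t ^ 2 * B ^ 2 := by rw [hAB]; ring
  have h2 : (1 - v * t ^ 2 / 2) ^ 2 ≤ A ^ 2 := by gcongr
  have h3 : A * B ≤ 0.001 * t ^ 3 + z * t ^ 4 / 36 := by
    rcases le_total B 0 with h | h
    · exact (mul_nonpos_of_nonneg_of_nonpos hApos h).trans hβ0
    · calc A * B ≤ 1 * B := mul_le_mul_of_nonneg_right hAle h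
        _ ≤ _ := by linarith
  have h4 : Real.cos t ^ 2 * (1 - v * t ^ 2 / 2) ^ 2 ≤ Real.cos t ^ 2 * A ^ 2 :=
    mul_le_mul_of_nonneg_left h2 (sq_nonneg _)
  have h5 : 2 * Real.sin t * Real.cos t * (A * B) ≤
      2 * Real.sin t * Real.cos t * (0.001 * t ^ 3 + z * t ^ 4 / 36) :=
    mul_le_mul_of_nonneg_left h3 (by positivity)
  have h6 : 0 ≤ Real.sin t ^ 2 * B ^ 2 := by positivity
  rw [h1, Real.sin_two_mul]
  linarith

theorem gLL : GLL := by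
  intro hNum θ φ hφ
  obtain ⟨n1, n2, -⟩ := hNum.1 θ hφ.lo hφ.hi
  have hlo := hφ.lo
  have hhi := hφ.hi
  have hv0 : 0.047 ≤ vv θ := by nlinarith [mul_nonneg (sub_nonneg.2 hlo) (sub_nonneg.2 hlo)]
  have hv1 : vv θ ≤ 0.1108 := by nlinarith [mul_nonneg (sub_nonneg.2 hlo) (sub_nonneg.2 hhi)]
  have hzdef : zz θ = 2.6 * vv θ ^ 2 + 0.0035 := rfl
  have hmeas : Measurable fun t => φ t ^ 2 * (-Real.log |φ t|) / t ^ 2 := by
    have h1 := hφ.meas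
    have h2 : Measurable fun t => Real.log |φ t| := Real.measurable_log.comp h1.abs
    exact ((h1.pow_const 2).mul h2.neg).div (measurable_id.pow_const 2)
  have hbd : ∀ t, 0 ≤ φ t ^ 2 * (-Real.log |φ t|) ∧
      φ t ^ 2 * (-Real.log |φ t|) ≤ (1 - φ t ^ 2) := by
    intro t
    have h1 := hφ.abs_le t
    rcases eq_or_ne (φ t) 0 with h0 | h0
    · simp [h0]
    · have hp : 0 < |φ t| := abs_pos.2 h0
      have h2 : Real.log |φ t| ≤ 0 := Real.log_nonpos hp.le h1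
      refine ⟨mul_nonneg (sq_nonneg _) (by linarith), ?_⟩
      have h3 := Real.one_sub_inv_le_log_of_pos hp
      have h4 : φ t ^ 2 = |φ t| ^ 2 := (sq_abs _).symm
      rw [h4]
      have h5 : |φ t| ^ 2 * (-Real.log |φ t|) ≤ |φ t| ^ 2 * (|φ t|⁻¹ - 1) :=
        mul_le_mul_of_nonneg_left (by linarith) (sq_nonneg _)
      have h6 : |φ t| ^ 2 * (|φ t|⁻¹ - 1) = |φ t| - |φ t| ^ 2 := by field_simp
      linarith
  have hint : IntegrableOn (fun t => φ t ^ 2 * (-Real.log |φ t|) / t ^ 2)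
      (Ioc 0 (Real.pi / 2)) := by
    refine (hφ.int2.mono_set Ioc_subset_Ioi_self).mono' hmeas.aestronglyMeasurable ?_
    refine Filter.Eventually.of_forall fun t => ?_
    rw [Real.norm_eq_abs, abs_of_nonneg (div_nonneg (hbd t).1 (sq_nonneg _))]
    exact div_le_div_of_nonneg_right (hbd t).2 (sq_nonneg _)
  refine ⟨hint, ?_⟩
  have hE := E_eq (vv θ) (zz θ) hzdef
  have hpos : (0 : ℝ) ≤ Real.pi / 2 := by positivity
  rw [intervalIntegral.integral_of_le hpos] at hE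
  have hle : ∫ t in Ioc 0 (Real.pi / 2), (Real.cos t ^ 2 * (1 - vv θ * t ^ 2 / 2) ^ 2 -
      Real.sin (2 * t) * (0.001 * t ^ 3 + zz θ * t ^ 4 / 36)) *
      ((1 + vv θ) / 2 + (1 / 12 + vv θ ^ 2 / 8 - 0.09 * zz θ) * t ^ 2 + 1 / 45 * t ^ 4 +
        17 / 2520 * t ^ 6 + 31 / 14175 * t ^ 8 + 691 / 935550 * t ^ 10) ≤ LL φ := by
    unfold LL
    refine setIntegral_mono_on ?_ hint measurableSet_Ioc ?_
    · exact (Continuous.integrableOn_Icc (by fun_prop)).mono_set Ioc_subset_Icc_self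
    · intro t ht
      have h1 := pointwise hφ hv0 hv1 ht.1 ht.2
      have ht0 : t ≠ 0 := ht.1.ne'
      have h2 : (Real.cos t ^ 2 * (1 - vv θ * t ^ 2 / 2) ^ 2 -
        Real.sin (2 * t) * (0.001 * t ^ 3 + zz θ * t ^ 4 / 36)) *
        ((1 + vv θ) / 2 + (1 / 12 + vv θ ^ 2 / 8 - 0.09 * zz θ) * t ^ 2 + 1 / 45 * t ^ 4 +
        17 / 2520 * t ^ 6 + 31 / 14175 * t ^ 8 + 691 / 935550 * t ^ 10) =
        (Real.cos t ^ 2 * (1 - vv θ * t ^ 2 / 2) ^ 2 -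
        Real.sin (2 * t) * (0.001 * t ^ 3 + zz θ * t ^ 4 / 36)) * PP (vv θ) (zz θ) t / t ^ 2 := by
        have hPP : PP (vv θ) (zz θ) t = ((1 + vv θ) / 2 +
          (1 / 12 + vv θ ^ 2 / 8 - 0.09 * zz θ) * t ^ 2 + 1 / 45 * t ^ 4 +
          17 / 2520 * t ^ 6 + 31 / 14175 * t ^ 8 + 691 / 935550 * t ^ 10) * t ^ 2 := by
          unfold PP
          ring
        rw [hPP, ← mul_assoc, mul_div_cancel_right₀ _ (pow_ne_zero 2 ht0)]
      rw [h2]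
      exact div_le_div_of_nonneg_right h1 (sq_nonneg _)
  rw [hE] at hle
  refine le_trans ?_ hle
  obtain ⟨b0, b1, b2, b3, b4⟩ := cc_bounds
  unfold LLlo
  have g1 : 0.24147 * vv θ ≤ cc1 * vv θ := mul_le_mul_of_nonneg_right b1 (by linarith)
  have g2 : -0.16616 * vv θ ^ 2 ≤ cc2 * vv θ ^ 2 := mul_le_mul_of_nonneg_right b2 (sq_nonneg _)
  have hv : 0 ≤ vv θ := by linarith
  have g3 : 0 ≤ cc3 * vv θ ^ 3 := by positivity
  have g4 : 0 ≤ cc4 * vv θ ^ 4 := by positivity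
  have g5 : vv θ ^ 2 ≤ 0.1108 * vv θ := by nlinarith
  nlinarith

end Pool.Agent.Helper73.Pq
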